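import Pool.Agent.Work.MP_db9399_xf_helper62.XFrame
import Pool.Agent.Work.MP_db9399_co.Defs

/-!
# MP_db9399, all graphs of large degree with precoloured matchings: the reduction (helper1)

`HX`, `HXP`: a `d`-regular graph with a precoloured matching; `W` = its vertices, `pt u` = partner of
`u`, own colours `c0`, edge colours `t0`. Every precoloured edge has an end in the sparse set `Z` (a vertex of
`Z` has at most one neighbour outside `Z`, two vertices of `Z` have at most one common neighbour).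

HRED: Q1 for all graphs of large degree follows from the theorem for these regular graphs. Every edge
`u u'` of the matching is replaced by two edges `u x`, `u' x'`, where `x x'` is a deleted edge of a
regular graph of girth 6 (a gadget); the same gadgets make the graph regular.

HZ: in every decomposition `PcD` the vertices of `Z` are in `V0`. So the precoloured edges are never
bulk edges or T-edges, they belong to `xt` and `xo`, and every vertex of `Z` has at most one neighbour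
in all pieces together.
-/

set_option autoImplicit false

namespace Pool.Agent.Work.MP_db9399_hr

open Finset Classical
open Pool.Agent.Work.MP_db9399_all (nb)
open Pool.Agent.Work.MP_db9399_xf
open _root_.MP_db9399_co (IsTotalColoring IsDistThreeMatching EveryTotalColoringExtends)

universe u

/-- A precoloured matching: vertices `W`, partner `pt`, own colours `c0`, `t0 u` = colour of the edge
`u (pt u)`; `Z` sparse vertices. -/
structure HX (V : Type u) where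
  W : Finset V
  pt : V → V
  c0 : V → ℕ
  t0 : V → ℕ
  Z : Finset V

section defs
variable {V : Type u} [Fintype V]

/-- Properties of a precoloured matching of the regular graph `G`. -/
structure HXP (G : SimpleGraph V) (d : ℕ) (Y : HX V) : Prop where
  reg : ∀ v, (nb G v).card = d
  ptW : ∀ u ∈ Y.W, Y.pt u ∈ Y.W
  ptp : ∀ u ∈ Y.W, Y.pt (Y.pt u) = u
  adj : ∀ u ∈ Y.W, G.Adj u (Y.pt u)
  spr : ∀ v, (insert v (nb G v) ∩ Y.W).card ≤ 2
  clt : ∀ u ∈ Y.W, Y.c0 u < d + 2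
  tlt : ∀ u ∈ Y.W, Y.t0 u < d + 2
  tpt : ∀ u ∈ Y.W, Y.t0 (Y.pt u) = Y.t0 u
  ct : ∀ u ∈ Y.W, Y.c0 u ≠ Y.t0 u
  cc : ∀ u ∈ Y.W, Y.c0 (Y.pt u) ≠ Y.c0 u
  zW : ∀ u ∈ Y.W, u ∈ Y.Z ∨ Y.pt u ∈ Y.Z
  zn : ∀ z ∈ Y.Z, (nb G z \ Y.Z).card ≤ 1
  zz : ∀ z ∈ Y.Z, ∀ z' ∈ Y.Z, z ≠ z' → (nb G z ∩ nb G z').card ≤ 1

/-- A total colouring with the prescribed colours. -/
structure TotHX (d : ℕ) (G : SimpleGraph V) (Y : HX V) (c : V → ℕ) (t : V → V → ℕ) : Prop
    extends TotX d G c t where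
  hc : ∀ u ∈ Y.W, c u = Y.c0 u
  ht : ∀ u ∈ Y.W, t u (Y.pt u) = Y.t0 u

end defs

/-- The theorem for regular graphs. -/
def Stmt_Q1R : Prop :=
  ∃ D0 : ℕ, ∀ {V : Type u} [Fintype V] (G : SimpleGraph V) (d : ℕ) (Y : HX V), D0 ≤ d →
    HXP G d Y → ∃ (c : V → ℕ) (t : V → V → ℕ), TotHX d G Y c t

/-- The same if at least `d ^ (1 - κ)` colours are not used on the matching. -/
def Stmt_Q1A (κ : ℝ) : Prop :=
  ∃ D0 : ℕ, ∀ {V : Type u} [Fintype V] (G : SimpleGraph V) (d : ℕ) (Y : HX V), D0 ≤ d →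
    HXP G d Y →
    (((Y.W.image Y.c0 ∪ Y.W.image Y.t0).card : ℕ) : ℝ) + (d : ℝ) ^ (1 - κ) ≤ d →
    ∃ (c : V → ℕ) (t : V → V → ℕ), TotHX d G Y c t

/-- Q1 for all graphs of large degree. -/
def Stmt_Q1L : Prop :=
  ∃ D₀ : ℕ, ∀ (V : Type u) [Fintype V] (G : SimpleGraph V) [DecidableRel G.Adj] (k : ℕ),
    D₀ ≤ G.maxDegree → G.maxDegree + 2 ≤ k → ∀ H : G.Subgraph, IsDistThreeMatching H →
      EveryTotalColoringExtends H (Fin k)

/-- HRED: the regular graph, with gadgets. `T` = colours used on the matching (no new ones). -/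
def Stmt_HRED : Prop :=
  ∀ {V : Type u} [Fintype V] (G : SimpleGraph V) (d : ℕ) (H : G.Subgraph) (c₀ : V → ℕ)
    (t₀ : Sym2 V → ℕ), 1 ≤ d → (∀ v, (nb G v).card ≤ d) → IsDistThreeMatching H →
    IsTotalColoring H.spanningCoe c₀ t₀ → (∀ v ∈ H.verts, c₀ v < d + 2) →
    (∀ e ∈ H.edgeSet, t₀ e < d + 2) →
    ∃ (V' : Type u) (_ : Fintype V') (G' : SimpleGraph V') (Y : HX V'), HXP G' d Y ∧
      (∀ b ∈ Y.W.image Y.c0 ∪ Y.W.image Y.t0,
        (∃ v ∈ H.verts, c₀ v = b) ∨ ∃ e ∈ H.edgeSet, t₀ e = b) ∧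
      ∀ (c : V' → ℕ) (t : V' → V' → ℕ), TotHX d G' Y c t →
        ∃ (c₁ : V → ℕ) (t₁ : Sym2 V → ℕ), IsTotalColoring G c₁ t₁ ∧ (∀ v, c₁ v < d + 2) ∧
          (∀ e ∈ G.edgeSet, t₁ e < d + 2) ∧ (∀ v ∈ H.verts, c₁ v = c₀ v) ∧
          ∀ e ∈ H.edgeSet, t₁ e = t₀ e

/-- HZ: sparse vertices are not in pieces. -/
def Stmt_HZ : Prop :=
  ∀ C : ℝ, 1 ≤ C → ∃ d0 : ℕ,
    ∀ {V : Type u} [Fintype V] {N J : ℕ} (G : SimpleGraph V) (d : ℕ) (X : XD V N J) (Y : HX V)
      (g z θk θ' η a : ℝ) (M : ℕ) (S : Fin J → Scl), d0 ≤ d → θk ≤ 1 / 10 → a ≤ 1 / 10 →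
      (∀ j, (S j).ζ ≤ 1 / 10) → (∀ j, (S j).θ ≤ 1 / 10) →
      PcD C g z θk θ' η a M S G d X → HXP G d Y →
      ∀ v ∈ Y.Z, v ∈ X.P.V0

end Pool.Agent.Work.MP_db9399_hr
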